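import Pool.Agent.helper19.HF.SpecC
import Pool.Agent.helper17.AT.PRT

/-!
# Project HF (MP_bf63dc_nt), row CLZ: cliques in samples of four blocks of forms
-/

set_option autoImplicit false

namespace Pool.Agent.HF

open Finset Pool.Agent.AT Pool.Agent.IT

/-- a set of indices whose forms are simultaneously prime infinitely often -/
theorem CLZ_J (k : ℕ) (f : Fin k → ℕ × ℤ) (hM : Many f) :
    ∃ J : Finset (Fin k), (1 / 4 + 1 / 500000 : ℝ) * k < #J ∧
      ∀ i ∈ J, ∀ j ∈ J, ∀ N : ℕ, ∃ n ≥ N, (ev (f i) n).Prime ∧ (ev (f j) n).Prime := by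
  classical
  obtain ⟨J, hJ, hJ2⟩ : ∃ J : Finset (Fin k), (1 / 4 + 1 / 500000 : ℝ) * k < #J ∧
      ∀ N : ℕ, ∃ n ≥ N, {i : Fin k | (ev (f i) n).Prime} = (J : Set (Fin k)) := by
    by_contra hcon
    push Not at hcon
    have h1 : ∀ J : Finset (Fin k), ∃ N : ℕ, (1 / 4 + 1 / 500000 : ℝ) * k < #J →
        ∀ n ≥ N, {i : Fin k | (ev (f i) n).Prime} ≠ (J : Set (Fin k)) := by
      intro J
      by_cases hJ : (1 / 4 + 1 / 500000 : ℝ) * k < #J
      · obtain ⟨N, hN⟩ := hcon J hJ
        exact ⟨N, fun _ => hN⟩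
      · exact ⟨0, fun h => absurd h hJ⟩
    choose N hN using h1
    obtain ⟨n, hn, hn2⟩ := hM (∑ J, N J)
    obtain ⟨J, hJ⟩ : ∃ J : Finset (Fin k), J = Finset.univ.filter (fun i : Fin k => (ev (f i) n).Prime) :=
      ⟨_, rfl⟩
    have h2 : N J ≤ n := le_trans (single_le_sum (f := N) (fun _ _ => Nat.zero_le _) (mem_univ J)) hn
    have h3 : hits f n = #J := by
      rw [hits, hJ]
    rw [h3] at hn2
    refine hN J hn2 n h2 ?_
    rw [hJ]
    ext i
    simp
  refine ⟨J, hJ, fun i hi j hj N => ?_⟩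
  obtain ⟨n, hn, hn2⟩ := hJ2 N
  refine ⟨n, hn, ?_, ?_⟩
  · have : i ∈ {i : Fin k | (ev (f i) n).Prime} := by
      rw [hn2]
      exact hi
    exact this
  · have : j ∈ {i : Fin k | (ev (f i) n).Prime} := by
      rw [hn2]
      exact hj
    exact this

/-- admissibility -/
theorem CLZ_adm (k D : ℕ) (f : Fin k → ℕ × ℤ)
    (hk : ∀ p : ℕ, p.Prime → ¬ p ∣ D → k < p ∧ ∀ i, ¬ p ∣ (f i).1)
    (h : Fin k → ℤ) (hh : ∀ i, IsCoprime (h i) (D : ℤ)) (hf : ∀ i, (D : ℤ) ∣ (f i).2 - h i) : Adm f := by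
  intro p hp
  by_cases hpD : p ∣ D
  · refine ⟨0, fun i hi => ?_⟩
    rw [Nat.cast_zero, mul_zero, zero_add] at hi
    have h2 : (p : ℤ) ∣ (f i).2 - h i := (Int.natCast_dvd_natCast.2 hpD).trans (hf i)
    have h3 : (p : ℤ) ∣ h i := by
      have := dvd_sub hi h2
      rwa [sub_sub_cancel] at this
    have h4 : IsUnit (p : ℤ) := (hh i).isUnit_of_dvd' h3 (Int.natCast_dvd_natCast.2 hpD)
    exact (Nat.prime_iff_prime_int.1 hp).not_unit h4
  · obtain ⟨h1, h2⟩ := hk p hp hpD
    by_contra hcon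
    push Not at hcon
    choose g hg using hcon
    obtain ⟨x, hx, y, hy, hxy, hgg⟩ := Finset.exists_ne_map_eq_of_card_lt_of_maps_to
      (s := range p) (t := (univ : Finset (Fin k))) (by rw [card_range, card_univ, Fintype.card_fin]; exact h1)
      (f := g) (fun _ _ => mem_univ _)
    have h3 := hg x
    have h4 := hg y
    rw [← hgg] at h4
    have h5 : (p : ℤ) ∣ ((f (g x)).1 : ℤ) * ((x : ℤ) - y) := by
      have h6 := dvd_sub h3 h4
      have e : ((f (g x)).1 : ℤ) * (x : ℤ) + (f (g x)).2 - (((f (g x)).1 : ℤ) * (y : ℤ) + (f (g x)).2) =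
          ((f (g x)).1 : ℤ) * ((x : ℤ) - y) := by ring
      rwa [e] at h6
    rcases (Nat.prime_iff_prime_int.1 hp).dvd_or_dvd h5 with h6 | h6
    · exact h2 (g x) (Int.natCast_dvd_natCast.1 h6)
    · rw [mem_range] at hx hy
      have h7 : (x : ℤ) - y = 0 := Int.eq_zero_of_abs_lt_dvd h6 (by rw [abs_lt]; constructor <;> omega)
      omega

theorem CLZ_same (b : ℕ) (h h' : ℤ) (hb : 1 ≤ b) (hP : Pair (b, h) (b, h')) : TC 1 1 (h - h') := by
  unfold Pair at hP
  simp only [Nat.gcd_self] at hP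
  rw [Nat.div_self hb, ← mul_sub, Int.mul_ediv_cancel_left _ (by omega)] at hP
  exact hP

theorem CLZ_diff (a b : ℕ) (h h' : ℤ) (hab : Nat.Coprime a b) (hP : Pair (b, h) (a, h')) :
    TC a b (a * h - b * h') := by
  unfold Pair at hP
  have h1 : Nat.gcd b a = 1 := hab.symm
  simp only [h1, Nat.div_one, Nat.cast_one, Int.ediv_one] at hP
  exact hP

theorem CLZ : CLZ_stmt := by
  classical
  intro hQ a b ha hb hab n η hn hη
  obtain ⟨C, δ, hC, hδ, -, hQ⟩ := hQ (n * 4) (by omega)
  obtain ⟨L, hL1, hL⟩ : ∃ L : ℕ, 1 ≤ L ∧ C * (L : ℝ) ^ (-δ) ≤ η := by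
    have h1 : Filter.Tendsto (fun L : ℕ => C * (L : ℝ) ^ (-δ)) Filter.atTop (nhds (C * 0)) :=
      ((tendsto_rpow_neg_atTop hδ).comp tendsto_natCast_atTop_atTop).const_mul C
    rw [mul_zero] at h1
    obtain ⟨L, h2, h3⟩ := ((h1.eventually (gt_mem_nhds hη)).and
      (Filter.eventually_ge_atTop 1)).exists
    exact ⟨L, h3, h2.le⟩
  obtain ⟨D, hDdef⟩ : ∃ D : ℕ, D = a * b * Nat.factorial (n * 4) := ⟨_, rfl⟩
  have hD : 1 ≤ D := by
    rw [hDdef]
    have := Nat.factorial_pos (n * 4)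
    exact Nat.mul_pos (Nat.mul_pos ha hb) this
  refine ⟨D, L, hD, ?_⟩
  intro h₀ h₁ hc₀ hc₁ R P hLR hmono hdvd hne
  have hinj : ∀ β u v, P β u = P β v → u = v := by
    intro β u v h
    rcases lt_trichotomy u v with h1 | h1 | h1
    · exact absurd h (hmono β u v h1).ne
    · exact h1
    · exact absurd h.symm (hmono β v u h1).ne
  obtain ⟨sl, hsl⟩ : ∃ sl : Fin 4 → ℕ, sl = fun β => if β.val < 2 then b else a := ⟨_, rfl⟩
  obtain ⟨hs, hhs⟩ : ∃ hs : Fin 4 → ℤ, hs = fun β => if β.val < 2 then h₀ else h₁ := ⟨_, rfl⟩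
  have hslpos : ∀ β, 0 < sl β := by
    intro β
    rw [hsl]
    dsimp only
    split_ifs
    · exact hb
    · exact ha
  have hslP : ∀ p : ℕ, p.Prime → ¬ p ∣ D → ∀ β, ¬ p ∣ sl β := by
    intro p hp hpD β hβ
    rw [hsl] at hβ
    dsimp only at hβ
    split_ifs at hβ
    · exact hpD (by rw [hDdef]; exact (hβ.mul_left a).mul_right _)
    · exact hpD (by rw [hDdef]; exact (hβ.mul_right b).mul_right _)
  have hsc : ∀ β, IsCoprime (hs β) (D : ℤ) := by
    intro β
    rw [hhs]
    dsimp only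
    split_ifs
    · exact hc₀
    · exact hc₁
  have hsd : ∀ β u, (D : ℤ) ∣ P β u - hs β := by
    intro β u
    obtain ⟨d0, d1, d2, d3⟩ := hdvd u
    rw [hhs]
    fin_cases β
    · exact d0
    · exact d1
    · exact d2
    · exact d3
  obtain ⟨fm, hfm⟩ : ∃ fm : Fin 4 → ℕ → ℕ × ℤ, fm = fun β u => (sl β, P β u) := ⟨_, rfl⟩
  have hfm1 : ∀ β u, (fm β u).1 = sl β := fun β u => by rw [hfm]
  have hfm2 : ∀ β u, (fm β u).2 = P β u := fun β u => by rw [hfm]
  have hfinj : ∀ β u v, fm β u = fm β v → u = v := by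
    intro β u v h
    have h1 := congrArg Prod.snd h
    rw [hfm2, hfm2] at h1
    exact hinj β u v h1
  obtain ⟨σ, hσ⟩ : ∃ σ : Fin (n * 4) ≃ Fin n × Fin 4, σ = finProdFinEquiv.symm := ⟨_, rfl⟩
  obtain ⟨F, hFdef⟩ : ∃ F : Fin (n * 4) → Finset (ℕ × ℤ), F = fun i => (range R).image (fm (σ i).2) := ⟨_, rfl⟩
  have hF : ∀ i, #(F i) = R := by
    intro i
    rw [hFdef]
    dsimp only
    rw [Finset.card_image_of_injective _ (fun u v h => hfinj _ u v h), card_range]
  have h1 := hQ F L hL1 (fun i => by rw [hF]; exact hLR) (by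
    intro i x hx
    rw [hFdef] at hx
    obtain ⟨u, -, rfl⟩ := Finset.mem_image.1 hx
    rw [hfm1]
    exact hslpos _)
  obtain ⟨f, hf⟩ : ∃ f : Om n 4 R → Fin (n * 4) → ℕ × ℤ, f = fun ω i => fm (σ i).2 (ω (σ i).1 (σ i).2 : ℕ) := ⟨_, rfl⟩
  have hadm : ∀ ω, Adm (f ω) := by
    intro ω
    refine CLZ_adm (n * 4) D (f ω) ?_ (fun i => hs (σ i).2) (fun i => hsc _) ?_
    · intro p hp hpD
      refine ⟨?_, ?_⟩
      · by_contra hlt
        apply hpD
        rw [hDdef]
        exact ((Nat.dvd_factorial hp.pos (not_lt.1 hlt)).mul_left _)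
      · intro i
        rw [hf]
        dsimp only
        rw [hfm1]
        exact hslP p hp hpD _
    · intro i
      rw [hf]
      dsimp only
      rw [hfm2]
      exact hsd _ _
  have h2 : #{ω : Om n 4 R | ¬ ∃ J : Finset (Fin n × Fin 4), (1 / 4 + 1 / 500000) * ((n : ℝ) * (4 : ℕ)) ≤ #J ∧
    ∀ x ∈ J, ∀ y ∈ J, (x.2 = 0 → y.2 = 1 → TC 1 1 (P 0 (ω x.1 0) - P 1 (ω y.1 1))) ∧ (x.2 = 2 → y.2 = 3 → TC 1 1 (P 2 (ω x.1 2) - P 3 (ω y.1 3))) ∧
      (x.2.val < 2 → 2 ≤ y.2.val → TC a b (a * P x.2 (ω x.1 x.2) - b * P y.2 (ω y.1 y.2)))} ≤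
      #{f ∈ Fintype.piFinset F | Adm f ∧ ¬ Many f} := by
    refine Finset.card_le_card_of_injOn f ?_ ?_
    · intro ω hω
      have hω' := (Finset.mem_filter.1 (Finset.mem_coe.1 hω)).2
      refine Finset.mem_coe.2 (Finset.mem_filter.2 ⟨?_, hadm ω, ?_⟩)
      · rw [Fintype.mem_piFinset]
        intro i
        rw [hFdef, hf]
        exact Finset.mem_image_of_mem _ (Finset.mem_range.2 (ω (σ i).1 (σ i).2).2)
      · intro hM
        obtain ⟨J, hJ1, hJ2⟩ := CLZ_J (n * 4) (f ω) hM
        have hpair : ∀ i ∈ J, ∀ j ∈ J, f ω i ≠ f ω j → Pair (f ω i) (f ω j) := by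
          intro i hi j hj hij
          refine PRT (f ω i) (f ω j) ?_ ?_ hij ?_ (hJ2 i hi j hj)
          · rw [hf]
            dsimp only
            rw [hfm1]
            exact hslpos _
          · rw [hf]
            dsimp only
            rw [hfm1]
            exact hslpos _
          · intro p hp
            obtain ⟨m, hm⟩ := hadm ω p hp
            refine ⟨m, fun t => ?_⟩
            fin_cases t
            · exact hm i
            · exact hm j
        have hpair2 : ∀ x ∈ J.map σ.toEmbedding, ∀ y ∈ J.map σ.toEmbedding,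
            fm x.2 (ω x.1 x.2) ≠ fm y.2 (ω y.1 y.2) → Pair (fm x.2 (ω x.1 x.2)) (fm y.2 (ω y.1 y.2)) := by
          intro x hx y hy
          obtain ⟨i, hi, rfl⟩ := Finset.mem_map.1 hx
          obtain ⟨j, hj, rfl⟩ := Finset.mem_map.1 hy
          have := hpair i hi j hj
          rw [hf] at this
          exact this
        refine hω' ⟨J.map σ.toEmbedding, ?_, ?_⟩
        · rw [Finset.card_map]
          have h3 : ((n * 4 : ℕ) : ℝ) = (n : ℝ) * (4 : ℕ) := by push_cast; ring
          rw [h3] at hJ1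
          exact hJ1.le
        · rintro ⟨xh, xb⟩ hx ⟨yh, yb⟩ hy
          have hp := hpair2 _ hx _ hy
          simp only at hp
          refine ⟨?_, ?_, ?_⟩
          · intro e1 e2
            simp only at e1 e2
            subst e1 e2
            have e3 := hp (by
              intro h
              have h5 := congrArg Prod.snd h
              rw [hfm2, hfm2] at h5
              exact (hne _ (ω xh 0).2 _ (ω yh 1).2).1 h5)
            rw [hfm, hsl] at e3
            exact CLZ_same b _ _ hb e3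
          · intro e1 e2
            simp only at e1 e2
            subst e1 e2
            have e3 := hp (by
              intro h
              have h5 := congrArg Prod.snd h
              rw [hfm2, hfm2] at h5
              exact (hne _ (ω xh 2).2 _ (ω yh 3).2).2.1 h5)
            rw [hfm, hsl] at e3
            exact CLZ_same a _ _ ha e3
          · intro e1 e2
            simp only at e1 e2 ⊢
            have e3 : sl xb = b := by
              rw [hsl]
              dsimp only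
              rw [if_pos e1]
            have e4 : sl yb = a := by
              rw [hsl]
              dsimp only
              rw [if_neg (by omega)]
            have e5 := hp (by
              intro h
              have h5 := congrArg Prod.snd h
              have h6 := congrArg Prod.fst h
              rw [hfm2, hfm2] at h5
              rw [hfm1, hfm1, e3, e4] at h6
              apply (hne _ (ω xh xb).2 _ (ω yh yb).2).2.2 xb yb e1 e2
              rw [h5, h6])
            rw [hfm] at e5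
            simp only [e3, e4] at e5
            exact CLZ_diff a b _ _ hab e5
    · intro ω _ ω' _ h
      funext c d
      have h3 := congrFun h (finProdFinEquiv (c, d))
      have h4 : σ (finProdFinEquiv (c, d)) = (c, d) := by
        rw [hσ]
        exact Equiv.symm_apply_apply _ _
      rw [hf] at h3
      dsimp only at h3
      rw [h4] at h3
      exact Fin.ext (hfinj _ _ _ h3)
  have h3 : ∏ i : Fin (n * 4), (#(F i) : ℝ) = (R : ℝ) ^ (n * 4) := by
    rw [Finset.prod_congr rfl (fun i _ => by rw [hF i]), Finset.prod_const, Finset.card_univ, Fintype.card_fin]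
  rw [h3] at h1
  have hP : (0 : ℝ) ≤ (R : ℝ) ^ (n * 4) := by positivity
  refine (Nat.cast_le.2 h2).trans (h1.trans ?_)
  calc C * (R : ℝ) ^ (n * 4) * (L : ℝ) ^ (-δ) = C * (L : ℝ) ^ (-δ) * (R : ℝ) ^ (n * 4) := by ring
    _ ≤ η * (R : ℝ) ^ (n * 4) := mul_le_mul_of_nonneg_right hL hP

end Pool.Agent.HF
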