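import Pool.Agent.helper84.HF.SpecH

/-!
# hf:KVM, iterated sums after Kaimanovich-Vershik and Madiman (helper63)
-/

set_option autoImplicit false

open Finset

namespace Pool.Agent.HF

open Classical in
theorem KVM_bij {α β ι : Type} (X : Finset α) (Y : Finset β) (e : α → β) (g : β → ι)
    (h1 : ∀ x ∈ X, e x ∈ Y) (h2 : ∀ x ∈ X, ∀ y ∈ X, e x = e y → x = y) (h3 : ∀ y ∈ Y, ∃ x ∈ X, e x = y) :
    H Y g = H X (fun x => g (e x)) := by
  have hc : X.card = Y.card := by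
    refine Finset.card_bij (fun x _ => e x) h1 (fun x hx y hy h => h2 x hx y hy h) ?_
    intro y hy
    obtain ⟨x, hx, hxy⟩ := h3 y hy
    exact ⟨x, hx, hxy⟩
  unfold H
  have himg : Y.image g = X.image (fun x => g (e x)) := by
    ext i
    simp only [Finset.mem_image]
    constructor
    · rintro ⟨y, hy, rfl⟩
      obtain ⟨x, hx, rfl⟩ := h3 y hy
      exact ⟨x, hx, rfl⟩
    · rintro ⟨x, hx, rfl⟩
      exact ⟨e x, h1 x hx, rfl⟩
  rw [himg]
  refine Finset.sum_congr rfl fun i _ => ?_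
  have hf : (X.filter (fun x => g (e x) = i)).card = (Y.filter (fun y => g y = i)).card := by
    refine Finset.card_bij (fun x _ => e x) ?_ ?_ ?_
    · intro x hx
      rw [Finset.mem_filter] at hx ⊢
      exact ⟨h1 x hx.1, hx.2⟩
    · intro x hx y hy h
      rw [Finset.mem_filter] at hx hy
      exact h2 x hx.1 y hy.1 h
    · intro y hy
      rw [Finset.mem_filter] at hy
      obtain ⟨x, hx, hxy⟩ := h3 y hy.1
      refine ⟨x, ?_, hxy⟩
      rw [Finset.mem_filter, hxy]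
      exact ⟨hx, hy.2⟩
  rw [hf, hc]

theorem KVM_det (hHBS : HBS_stmt) {α ι κ : Type} (X : Finset α) (f : α → ι) (g : α → κ) (hX : X.Nonempty)
    (h : ∀ x ∈ X, ∀ y ∈ X, (f x = f y ↔ g x = g y)) : H X f = H X g :=
  le_antisymm ((hHBS α κ ι X g f hX).2.2.2 fun x hx y hy => (h x hx y hy).2)
    ((hHBS α ι κ X f g hX).2.2.2 fun x hx y hy => (h x hx y hy).1)

theorem KVM_mem {k : ℕ} {R : Finset ℕ} {u : Fin k → ℕ} : u ∈ Rk k R ↔ ∀ i, u i ∈ R := Fintype.mem_piFinset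

theorem KVM_ne (k : ℕ) {R : Finset ℕ} (hR : R.Nonempty) : (Rk k R).Nonempty := by
  obtain ⟨r, hr⟩ := hR
  exact ⟨fun _ => r, KVM_mem.mpr fun _ => hr⟩

theorem KVM_sm {k : ℕ} (x : ℕ) (u : Fin k → ℕ) : sm (Fin.cons x u : Fin (k + 1) → ℕ) = x + sm u := by
  unfold sm
  rw [Fin.sum_univ_succ]
  simp only [Fin.cons_zero, Fin.cons_succ]

theorem KVM_cons {k : ℕ} {R : Finset ℕ} {x : ℕ} {u : Fin k → ℕ} :
    (Fin.cons x u : Fin (k + 1) → ℕ) ∈ Rk (k + 1) R ↔ x ∈ R ∧ u ∈ Rk k R := by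
  rw [KVM_mem, Fin.forall_fin_succ, KVM_mem]
  simp only [Fin.cons_zero, Fin.cons_succ]

theorem KVM_step (hHBS : HBS_stmt) (hHSM : HSM_stmt) (hHPR : HPR_stmt) (R : Finset ℕ) (k : ℕ) (hR : R.Nonempty) :
    H (Rk (k + 2) R) sm ≤ H (Rk (k + 1) R) sm + (H (R ×ˢ R) (fun z => z.1 + z.2) - Real.log R.card) := by
  have hK := KVM_ne k hR
  obtain ⟨X, hX⟩ : ∃ X : Finset (ℕ × (Fin k → ℕ) × ℕ), X = R ×ˢ (Rk k R ×ˢ R) := ⟨_, rfl⟩
  have hXn : X.Nonempty := by rw [hX]; exact hR.product (hK.product hR)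
  have hXm : ∀ w : ℕ × (Fin k → ℕ) × ℕ, w ∈ X ↔ w.1 ∈ R ∧ w.2.1 ∈ Rk k R ∧ w.2.2 ∈ R := by
    intro w
    rw [hX, Finset.mem_product, Finset.mem_product]
  have hid : H R (fun x : ℕ => x) = Real.log R.card := (hHBS ℕ ℕ ℕ R (fun x => x) (fun x => x) hR).2.2.1 fun x _ y _ h => h
  -- submodularity
  have e0 := hHSM _ _ _ _ X (fun w : ℕ × (Fin k → ℕ) × ℕ => w.1 + sm w.2.1) (fun w => w.1 + w.2.2)
    (fun w => w.1 + sm w.2.1 + w.2.2) hXn
  -- the four terms
  have e1 : H X (fun w : ℕ × (Fin k → ℕ) × ℕ => (w.1 + sm w.2.1, w.1 + w.2.2, w.1 + sm w.2.1 + w.2.2)) =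
      Real.log R.card + (H (Rk k R) sm + Real.log R.card) := by
    rw [KVM_det hHBS X _ (fun w : ℕ × (Fin k → ℕ) × ℕ => (w.1, (sm w.2.1, w.2.2))) hXn, hX]
    · have e := (hHPR _ _ _ _ R (Rk k R ×ˢ R) (fun x : ℕ => x) (fun v : (Fin k → ℕ) × ℕ => (sm v.1, v.2)) hR (hK.product hR)).1
      have e' := (hHPR _ _ _ _ (Rk k R) R (fun u : Fin k → ℕ => sm u) (fun x : ℕ => x) hK hR).1
      rw [e, e', hid]
    · intro x _ y _
      simp only [Prod.mk.injEq]
      constructor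
      · rintro ⟨a1, a2, a3⟩
        refine ⟨by omega, by omega, by omega⟩
      · rintro ⟨a1, a2, a3⟩
        refine ⟨by omega, by omega, by omega⟩
  have e2 : H X (fun w : ℕ × (Fin k → ℕ) × ℕ => (w.1 + sm w.2.1, w.1 + sm w.2.1 + w.2.2)) =
      H (Rk (k + 1) R) sm + Real.log R.card := by
    rw [KVM_det hHBS X _ (fun w : ℕ × (Fin k → ℕ) × ℕ => (w.1 + sm w.2.1, w.2.2)) hXn]
    · have e := (hHPR _ _ _ _ (R ×ˢ Rk k R) R (fun v : ℕ × (Fin k → ℕ) => v.1 + sm v.2) (fun x : ℕ => x) (hR.product hK) hR).1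
      have e' := KVM_bij (R ×ˢ Rk k R) (Rk (k + 1) R) (fun v => (Fin.cons v.1 v.2 : Fin (k + 1) → ℕ)) sm
        (fun v hv => by
          rw [Finset.mem_product] at hv
          exact KVM_cons.mpr hv)
        (fun v _ w _ h => by
          have h' := Fin.cons_injective2 h
          exact Prod.ext h'.1 h'.2)
        (fun u hu => ⟨(u 0, Fin.tail u), by
          rw [Finset.mem_product]
          rw [← Fin.cons_self_tail u] at hu
          exact KVM_cons.mp hu, Fin.cons_self_tail u⟩)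
      have e'' : H (R ×ˢ Rk k R) (fun x => sm (Fin.cons x.1 x.2 : Fin (k + 1) → ℕ)) = H (R ×ˢ Rk k R) (fun v => v.1 + sm v.2) := by
        congr 1
        funext v
        exact KVM_sm v.1 v.2
      rw [e', e'', ← hid, ← e]
      refine KVM_bij ((R ×ˢ Rk k R) ×ˢ R) X (fun w => (w.1.1, (w.1.2, w.2))) (fun w : ℕ × (Fin k → ℕ) × ℕ => (w.1 + sm w.2.1, w.2.2)) ?_ ?_ ?_
      · intro w hw
        rw [Finset.mem_product, Finset.mem_product] at hw
        rw [hXm]
        exact ⟨hw.1.1, hw.1.2, hw.2⟩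
      · intro v _ w _ h
        simp only [Prod.mk.injEq] at h
        exact Prod.ext (Prod.ext h.1 h.2.1) h.2.2
      · intro w hw
        rw [hXm] at hw
        refine ⟨((w.1, w.2.1), w.2.2), ?_, rfl⟩
        rw [Finset.mem_product, Finset.mem_product]
        exact ⟨⟨hw.1, hw.2.1⟩, hw.2.2⟩
    · intro x _ y _
      simp only [Prod.mk.injEq]
      constructor
      · rintro ⟨a1, a2⟩
        exact ⟨a1, by omega⟩
      · rintro ⟨a1, a2⟩
        exact ⟨a1, by omega⟩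
  have e3 : H X (fun w : ℕ × (Fin k → ℕ) × ℕ => (w.1 + w.2.2, w.1 + sm w.2.1 + w.2.2)) =
      H (R ×ˢ R) (fun z => z.1 + z.2) + H (Rk k R) sm := by
    rw [KVM_det hHBS X _ (fun w : ℕ × (Fin k → ℕ) × ℕ => (w.1 + w.2.2, sm w.2.1)) hXn]
    · have e := (hHPR _ _ _ _ (R ×ˢ R) (Rk k R) (fun v : ℕ × ℕ => v.1 + v.2) (fun u : Fin k → ℕ => sm u) (hR.product hR) hK).1
      have e' : H (Rk k R) (fun u : Fin k → ℕ => sm u) = H (Rk k R) sm := rfl
      rw [← e', ← e]
      refine KVM_bij ((R ×ˢ R) ×ˢ Rk k R) X (fun w => (w.1.1, (w.2, w.1.2))) (fun w : ℕ × (Fin k → ℕ) × ℕ => (w.1 + w.2.2, sm w.2.1)) ?_ ?_ ?_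
      · intro w hw
        rw [Finset.mem_product, Finset.mem_product] at hw
        rw [hXm]
        exact ⟨hw.1.1, hw.2, hw.1.2⟩
      · intro v _ w _ h
        simp only [Prod.mk.injEq] at h
        exact Prod.ext (Prod.ext h.1 h.2.2) h.2.1
      · intro w hw
        rw [hXm] at hw
        refine ⟨((w.1, w.2.2), w.2.1), ?_, rfl⟩
        rw [Finset.mem_product, Finset.mem_product]
        exact ⟨⟨hw.1, hw.2.2⟩, hw.2.1⟩
    · intro x _ y _
      simp only [Prod.mk.injEq]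
      constructor
      · rintro ⟨a1, a2⟩
        exact ⟨a1, by omega⟩
      · rintro ⟨a1, a2⟩
        exact ⟨a1, by omega⟩
  have e4 : H X (fun w : ℕ × (Fin k → ℕ) × ℕ => w.1 + sm w.2.1 + w.2.2) = H (Rk (k + 2) R) sm := by
    have e' := KVM_bij X (Rk (k + 2) R) (fun w => (Fin.cons w.1 (Fin.cons w.2.2 w.2.1 : Fin (k + 1) → ℕ) : Fin (k + 2) → ℕ)) sm
      (fun w hw => by
        rw [hXm] at hw
        exact KVM_cons.mpr ⟨hw.1, KVM_cons.mpr ⟨hw.2.2, hw.2.1⟩⟩)
      (fun v _ w _ h => by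
        have h' := Fin.cons_injective2 h
        have h'' := Fin.cons_injective2 h'.2
        exact Prod.ext h'.1 (Prod.ext h''.2 h''.1))
      (fun u hu => ⟨(u 0, (Fin.tail (Fin.tail u), u 1)), by
        rw [hXm]
        rw [← Fin.cons_self_tail u] at hu
        have h1 := KVM_cons.mp hu
        have h2 := h1.2
        rw [← Fin.cons_self_tail (Fin.tail u)] at h2
        have h3 := KVM_cons.mp h2
        exact ⟨h1.1, h3.2, h3.1⟩, by
        have h1 : (Fin.cons (u 1) (Fin.tail (Fin.tail u)) : Fin (k + 1) → ℕ) = Fin.tail u := Fin.cons_self_tail (Fin.tail u)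
        change (Fin.cons (u 0) (Fin.cons (u 1) (Fin.tail (Fin.tail u)) : Fin (k + 1) → ℕ) : Fin (k + 2) → ℕ) = u
        rw [h1]
        exact Fin.cons_self_tail u⟩)
    rw [e']
    congr 1
    funext w
    rw [KVM_sm, KVM_sm]
    omega
  rw [e1, e2, e3, e4] at e0
  linarith

/-- **Row KVM** -/
theorem KVM_proof (hHBS : HBS_stmt) (_hHCH : HCH_stmt) (hHSM : HSM_stmt) (hHPR : HPR_stmt) : KVM_stmt := by
  intro R k hR
  induction k with
  | zero =>
    have h1 : H (Rk (0 + 1) R) sm = Real.log (Rk (0 + 1) R).card := by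
      refine (hHBS _ _ ℕ (Rk (0 + 1) R) sm sm (KVM_ne _ hR)).2.2.1 ?_
      intro x _ y _ h
      unfold sm at h
      rw [Fin.sum_univ_one, Fin.sum_univ_one] at h
      funext i
      have hi : i = 0 := Subsingleton.elim (α := Fin 1) i 0
      rw [hi]
      exact h
    have h2 : (Rk (0 + 1) R).card = R.card := by
      unfold Rk
      rw [Fintype.card_piFinset]
      simp
    rw [h1, h2]
    simp
  | succ k ih =>
    have h1 := KVM_step hHBS hHSM hHPR R k hR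
    push_cast
    have h2 : H (Rk (k + 1 + 1) R) sm = H (Rk (k + 2) R) sm := rfl
    rw [h2]
    linarith

end Pool.Agent.HF
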