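import Pool.Agent.helper84.HF.SpecH

/-!
# hf:NIC, many nice nodes (helper63)
-/

set_option autoImplicit false

open Finset

namespace Pool.Agent.HF

open Classical in
/-- the chain rule with bounds for the fibres -/
theorem NIC_chain (hHCH : HCH_stmt) {α ι κ : Type} (X : Finset α) (f : α → ι) (g : α → κ) (hX : X.Nonempty) (T : κ → ℝ)
    (hT : ∀ x ∈ X, ∀ Z : Finset α, (∀ y, y ∈ Z ↔ y ∈ X ∧ g y = g x) → H Z f ≤ T (g x)) :
    H X (fun x => (f x, g x)) ≤ H X g + (∑ x ∈ X, T (g x)) / X.card := by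
  rw [hHCH α ι κ X f g hX]
  have hpos : (0 : ℝ) < X.card := Nat.cast_pos.mpr hX.card_pos
  have h1 : ∑ x ∈ X, T (g x) = ∑ j ∈ X.image g, ((X.filter (fun x => g x = j)).card : ℝ) * T j := by
    rw [← Finset.sum_fiberwise_of_maps_to (s := X) (t := X.image g) (g := g) (fun x hx => Finset.mem_image_of_mem g hx)]
    refine Finset.sum_congr rfl fun j _ => ?_
    rw [Finset.sum_congr rfl (g := fun _ => T j), Finset.sum_const, nsmul_eq_mul]
    intro x hx
    rw [Finset.mem_filter] at hx
    rw [hx.2]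
  rw [h1, Finset.sum_div]
  refine add_le_add le_rfl (Finset.sum_le_sum fun j hj => ?_)
  obtain ⟨x, hx, rfl⟩ := Finset.mem_image.mp hj
  have h2 := hT x hx (X.filter (fun y => g y = g x)) fun y => by rw [Finset.mem_filter]
  rw [div_mul_eq_mul_div]
  exact div_le_div_of_nonneg_right (mul_le_mul_of_nonneg_left h2 (Nat.cast_nonneg _)) hpos.le

theorem NIC_div (N i u : ℕ) : px N (i + 32) u / 2 ^ ((N - i) - (N - (i + 32))) = px N i u := by
  unfold px
  rw [Nat.div_div_eq_div_mul, ← pow_add]
  congr 2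
  omega

open Classical in
theorem NIC_one (hHBS : HBS_stmt) (hHCH : HCH_stmt) (hNCH : NCH_stmt) (R : Finset ℕ) (N i : ℕ) (hR : R.Nonempty)
    (hu : ∀ u ∈ R, u < 2 ^ N) (hi : i ≤ N) :
    H R (px N (i + 32)) - H R (px N i) ≤ 3 * Real.log 2 + 32 * Real.log 2 * qq R N i := by
  have hL : 0 < Real.log 2 := Real.log_pos (by norm_num)
  have hpos : (0 : ℝ) < R.card := Nat.cast_pos.mpr hR.card_pos
  have h1 := NIC_chain hHCH R (px N (i + 32)) (px N i) hR
    (fun p => 3 * Real.log 2 + 32 * Real.log 2 * (if nic R N i p then (1 : ℝ) else 0)) (by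
      intro u huR Z hZ
      have hZe : Z = nd R N i (px N i u) := by
        ext y
        rw [hZ, nd, Finset.mem_filter]
      have hne : (nd R N i (px N i u)).Nonempty := ⟨u, by rw [nd, Finset.mem_filter]; exact ⟨huR, rfl⟩⟩
      rw [hZe]
      by_cases hn : nic R N i (px N i u)
      · rw [if_pos hn]
        obtain ⟨d, hd⟩ : ∃ d, d = (N - i) - (N - (i + 32)) := ⟨_, rfl⟩
        have hd32 : d ≤ 32 := by omega
        have h2 := (hHBS ℕ ℕ ℕ (nd R N i (px N i u)) (px N (i + 32)) (px N (i + 32)) hne).2.1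
          (Finset.Ico (px N i u * 2 ^ d) ((px N i u + 1) * 2 ^ d)) (by
            intro y hy
            rw [nd, Finset.mem_filter] at hy
            have h3 := NIC_div N i y
            rw [hy.2, ← hd] at h3
            rw [Finset.mem_Ico, ← h3]
            refine ⟨Nat.div_mul_le_self _ _, ?_⟩
            have h4 := Nat.lt_div_mul_add (a := px N (i + 32) y) (b := 2 ^ d) (by positivity)
            rw [add_mul, one_mul]
            exact h4)
        rw [Nat.card_Ico] at h2
        have h3 : (px N i u + 1) * 2 ^ d - px N i u * 2 ^ d = 2 ^ d := by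
          rw [add_mul, one_mul, Nat.add_sub_cancel_left]
        rw [h3, Nat.cast_pow, Nat.cast_ofNat, Real.log_pow] at h2
        have h4 : (d : ℝ) * Real.log 2 ≤ 32 * Real.log 2 :=
          mul_le_mul_of_nonneg_right (by exact_mod_cast hd32) hL.le
        linarith
      · rw [if_neg hn]
        have h2 := hNCH R N i (px N i u) hu hi hne hn
        linarith)
  have h2 : H R (px N (i + 32)) ≤ H R (fun x => (px N (i + 32) x, px N i x)) :=
    (hHBS ℕ (ℕ × ℕ) ℕ R (fun x => (px N (i + 32) x, px N i x)) (px N (i + 32)) hR).2.2.2 fun x _ y _ h => by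
      simp only [Prod.mk.injEq] at h
      exact h.1
  have h3 : (∑ x ∈ R, (3 * Real.log 2 + 32 * Real.log 2 * (if nic R N i (px N i x) then (1 : ℝ) else 0))) / R.card =
      3 * Real.log 2 + 32 * Real.log 2 * qq R N i := by
    rw [Finset.sum_add_distrib, Finset.sum_const, ← Finset.mul_sum, Finset.sum_boole, nsmul_eq_mul, qq]
    field_simp
  have h4 : (∑ x ∈ R, (fun p => 3 * Real.log 2 + 32 * Real.log 2 * (if nic R N i p then (1 : ℝ) else 0)) (px N i x)) / R.card =
      3 * Real.log 2 + 32 * Real.log 2 * qq R N i := h3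
  rw [h4] at h1
  linarith

/-- **Row NIC** -/
theorem NIC_proof (hHBS : HBS_stmt) (hHCH : HCH_stmt) (hNCH : NCH_stmt) : NIC_stmt := by
  intro R N hR hu hN hlog
  have hL : 0 < Real.log 2 := Real.log_pos (by norm_num)
  have h1 : ∑ i ∈ Finset.range (N + 1), (H R (px N (i + 32)) - H R (px N i)) ≤
      ∑ i ∈ Finset.range (N + 1), (3 * Real.log 2 + 32 * Real.log 2 * qq R N i) :=
    Finset.sum_le_sum fun i hi => NIC_one hHBS hHCH hNCH R N i hR hu (by rw [Finset.mem_range] at hi; omega)
  rw [Finset.sum_add_distrib, Finset.sum_const, ← Finset.mul_sum, Finset.card_range, nsmul_eq_mul] at h1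
  have h2 : ∑ i ∈ Finset.range (N + 1), (H R (px N (i + 32)) - H R (px N i)) =
      ∑ j ∈ Finset.range 32, H R (px N (N + 1 + j)) - ∑ j ∈ Finset.range 32, H R (px N j) := by
    have e1 := Finset.sum_range_add (fun i => H R (px N i)) 32 (N + 1)
    have e2 := Finset.sum_range_add (fun i => H R (px N i)) (N + 1) 32
    rw [show 32 + (N + 1) = N + 1 + 32 by omega, e2] at e1
    rw [Finset.sum_sub_distrib]
    have e3 : ∑ i ∈ Finset.range (N + 1), H R (px N (i + 32)) = ∑ i ∈ Finset.range (N + 1), H R (px N (32 + i)) :=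
      Finset.sum_congr rfl fun i _ => by rw [add_comm i 32]
    rw [e3]
    linarith
  have h3 : ∀ j, H R (px N (N + 1 + j)) = Real.log R.card := by
    intro j
    refine (hHBS ℕ ℕ ℕ R (px N (N + 1 + j)) (px N (N + 1 + j)) hR).2.2.1 fun x _ y _ h => ?_
    unfold px at h
    rw [show N - (N + 1 + j) = 0 by omega, pow_zero, Nat.div_one, Nat.div_one] at h
    exact h
  have h4 : ∀ j ∈ Finset.range 32, H R (px N j) ≤ 32 * Real.log 2 := by
    intro j hj
    rw [Finset.mem_range] at hj
    have h5 := (hHBS ℕ ℕ ℕ R (px N j) (px N j) hR).2.1 (Finset.range (2 ^ j)) (by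
      intro u huR
      rw [Finset.mem_range]
      unfold px
      refine Nat.div_lt_of_lt_mul ?_
      rw [← pow_add, show N - j + j = N by omega]
      exact hu u huR)
    rw [Finset.card_range, Nat.cast_pow, Nat.cast_ofNat, Real.log_pow] at h5
    refine h5.trans (mul_le_mul_of_nonneg_right ?_ hL.le)
    exact_mod_cast hj.le
  have h5 : ∑ j ∈ Finset.range 32, H R (px N j) ≤ 32 * (32 * Real.log 2) := by
    refine (Finset.sum_le_sum h4).trans ?_
    rw [Finset.sum_const, Finset.card_range, nsmul_eq_mul]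
    norm_num
  have h6 : ∑ j ∈ Finset.range 32, H R (px N (N + 1 + j)) = 32 * Real.log R.card := by
    rw [Finset.sum_congr rfl fun j _ => h3 j, Finset.sum_const, Finset.card_range, nsmul_eq_mul]
    norm_num
  rw [h2, h6] at h1
  push_cast at h1
  obtain ⟨Q, hQ⟩ : ∃ Q, Q = ∑ i ∈ Finset.range (N + 1), qq R N i := ⟨_, rfl⟩
  rw [← hQ] at h1 ⊢
  have h7 : Real.log 2 * (7 * N - 1024) ≤ Real.log 2 * (3 * (N + 1) + 32 * Q) := by
    nlinarith [h1, h5, hlog]
  have h8 := le_of_mul_le_mul_left h7 hL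
  have h9 : (1024 : ℝ) ≤ N := by exact_mod_cast hN
  linarith

end Pool.Agent.HF
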