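import Pool.Agent.helper19.HF.SpecD

/-!
# Project HF (MP_bf63dc_nt), row SEY: averaging, the choice of one quadruple
-/

set_option autoImplicit false

namespace Pool.Agent.HF

open Finset Pool.Agent.AT Pool.Agent.IT

theorem SEY_sum (R Q : ℕ) (F : ℕ → ℝ) :
    ∑ p ∈ range (R * Q), F p = ∑ w ∈ range Q, ∑ u ∈ range R, F (u * Q + w) := by
  rw [Finset.sum_comm]
  induction R with
  | zero => simp
  | succ R ih => rw [Nat.succ_mul, Finset.sum_range_add, ih, Finset.sum_range_succ]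

theorem SEY_sum2 (R Q : ℕ) (G : ℕ → ℕ → ℝ) :
    ∑ p ∈ range (R * Q), ∑ q ∈ range (R * Q), G p q =
      ∑ w ∈ range Q, ∑ w' ∈ range Q, ∑ u ∈ range R, ∑ v ∈ range R, G (u * Q + w) (v * Q + w') := by
  rw [SEY_sum R Q (fun p => ∑ q ∈ range (R * Q), G p q)]
  refine sum_congr rfl fun w _ => ?_
  exact (sum_congr rfl fun u _ => SEY_sum R Q (fun q => G (u * Q + w) q)).trans sum_comm

theorem SEY : SEY_stmt := by
  classical
  intro R K α ε ε' a E hR hK hε0 hεα hε1 hε ha hS hE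
  obtain ⟨Q, hQ⟩ : ∃ Q, Q = K * K := ⟨_, rfl⟩
  have hQ1 : 1 ≤ Q := by rw [hQ]; exact Nat.mul_pos hK hK
  simp only [← hQ] at hS hE ⊢
  obtain ⟨G, hG⟩ : ∃ G : Fin 4 → Fin 4 → ℕ → ℕ → ℝ, G = fun β β' p q => if E β β' p q then 0 else a β p * a β' q :=
    ⟨_, rfl⟩
  have hGd : ∀ β β' p q, (if E β β' p q then 0 else a β p * a β' q) = G β β' p q := fun _ _ _ _ => by rw [hG]
  simp only [hGd] at hE ⊢
  have hG0 : ∀ β β' p q, 0 ≤ G β β' p q := by
    intro β β' p q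
    rw [hG]
    dsimp only
    split_ifs
    · exact le_rfl
    · exact mul_nonneg (ha _ _).1 (ha _ _).1
  obtain ⟨S, hSd⟩ : ∃ S : ℕ → ℕ → ℝ, S = fun w w' => ∑ u ∈ range R, (a 0 (u * Q + w) + a 1 (u * Q + w) +
    a 2 (u * Q + w') + a 3 (u * Q + w')) := ⟨_, rfl⟩
  obtain ⟨Er, hErd⟩ : ∃ Er : Fin 4 → Fin 4 → ℕ → ℕ → ℝ, Er = fun β β' w w' => ∑ u ∈ range R, ∑ v ∈ range R,
    G β β' (u * Q + w) (v * Q + w') := ⟨_, rfl⟩
  have hR0 : (0 : ℝ) < R := by exact_mod_cast hR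
  have hQ0 : (0 : ℝ) < Q := by exact_mod_cast hQ1
  have hEr0 : ∀ β β' w w', 0 ≤ Er β β' w w' := by
    intro β β' w w'
    rw [hErd]
    exact sum_nonneg fun u _ => sum_nonneg fun v _ => hG0 _ _ _ _
  have hSle : ∀ w w', S w w' ≤ 4 * R := by
    intro w w'
    rw [hSd]
    have h1 : ∑ u ∈ range R, (a 0 (u * Q + w) + a 1 (u * Q + w) + a 2 (u * Q + w') + a 3 (u * Q + w')) ≤
        ∑ _u ∈ range R, (4 : ℝ) := by
      refine sum_le_sum fun u _ => ?_
      have e0 := (ha 0 (u * Q + w)).2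
      have e1 := (ha 1 (u * Q + w)).2
      have e2 := (ha 2 (u * Q + w')).2
      have e3 := (ha 3 (u * Q + w')).2
      linarith
    rw [sum_const, card_range, nsmul_eq_mul] at h1
    linarith
  have hsumS : ∑ w ∈ range Q, ∑ w' ∈ range Q, S w w' = Q * ∑ β, ∑ p ∈ range (R * Q), a β p := by
    have h1 : ∀ w w', S w w' = (∑ u ∈ range R, a 0 (u * Q + w) + ∑ u ∈ range R, a 1 (u * Q + w)) +
        (∑ u ∈ range R, a 2 (u * Q + w') + ∑ u ∈ range R, a 3 (u * Q + w')) := by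
      intro w w'
      rw [hSd]
      dsimp only
      rw [← sum_add_distrib, ← sum_add_distrib, ← sum_add_distrib]
      refine sum_congr rfl fun u _ => ?_
      ring
    simp only [h1, sum_add_distrib, sum_const, card_range, nsmul_eq_mul]
    rw [Fin.sum_univ_four, SEY_sum R Q (a 0), SEY_sum R Q (a 1), SEY_sum R Q (a 2), SEY_sum R Q (a 3)]
    simp only [← mul_sum]
    ring
  have hsumE : ∀ β β' : Fin 4, β.val < 2 → 2 ≤ β'.val → ∑ w ∈ range Q, ∑ w' ∈ range Q, Er β β' w w' ≤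
      ε * ((R * Q : ℕ) : ℝ) ^ 2 := by
    intro β β' h1 h2
    have h3 := hE β β' h1 h2
    rw [SEY_sum2 R Q (G β β')] at h3
    rw [hErd]
    exact h3
  obtain ⟨w, hw, w', hw', hgood⟩ : ∃ w ∈ range Q, ∃ w' ∈ range Q, (α - ε') * (4 * R) ≤ S w w' ∧
      ∀ β β' : Fin 4, β.val < 2 → 2 ≤ β'.val → Er β β' w w' ≤ ε' * (R : ℝ) ^ 2 := by
    by_contra hcon
    push Not at hcon
    have hlt : ∀ w ∈ range Q, ∀ w' ∈ range Q, ε' * R * S w w' - 4 * (Er 0 2 w w' + Er 0 3 w w' + Er 1 2 w w' + Er 1 3 w w') <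
        4 * (R : ℝ) ^ 2 * ε' * (α - ε') := by
      intro w hw w' hw'
      have p1 := hEr0 0 2 w w'
      have p2 := hEr0 0 3 w w'
      have p3 := hEr0 1 2 w w'
      have p4 := hEr0 1 3 w w'
      by_cases h1 : (α - ε') * (4 * R) ≤ S w w'
      · obtain ⟨β, β', hb, hb', h2⟩ := hcon w hw w' hw' h1
        have h3 : Er β β' w w' ≤ Er 0 2 w w' + Er 0 3 w w' + Er 1 2 w w' + Er 1 3 w w' := by
          fin_cases β <;> fin_cases β' <;> simp at hb hb' ⊢ <;> linarith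
        have h4 := hSle w w'
        have h5 : ε' * R * S w w' ≤ ε' * R * (4 * R) := mul_le_mul_of_nonneg_left h4 (by positivity)
        have h6 : 0 ≤ 4 * (R : ℝ) ^ 2 * ε' * (α - ε') := mul_nonneg (by positivity) (by linarith)
        nlinarith
      · push Not at h1
        have h5 : ε' * R * S w w' < ε' * R * ((α - ε') * (4 * R)) := mul_lt_mul_of_pos_left h1 (by positivity)
        nlinarith
    have hsum : ∑ w ∈ range Q, ∑ w' ∈ range Q, (ε' * R * S w w' - 4 * (Er 0 2 w w' + Er 0 3 w w' + Er 1 2 w w' + Er 1 3 w w')) <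
        ∑ w ∈ range Q, ∑ w' ∈ range Q, 4 * (R : ℝ) ^ 2 * ε' * (α - ε') := by
      have hne : (range Q).Nonempty := ⟨0, mem_range.2 hQ1⟩
      exact sum_lt_sum_of_nonempty hne fun w hw => sum_lt_sum_of_nonempty hne fun w' hw' => hlt w hw w' hw'
    have e1 : ∑ w ∈ range Q, ∑ w' ∈ range Q, (ε' * R * S w w' - 4 * (Er 0 2 w w' + Er 0 3 w w' + Er 1 2 w w' + Er 1 3 w w')) =
        ε' * R * (∑ w ∈ range Q, ∑ w' ∈ range Q, S w w') - 4 * ((∑ w ∈ range Q, ∑ w' ∈ range Q, Er 0 2 w w') +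
          (∑ w ∈ range Q, ∑ w' ∈ range Q, Er 0 3 w w') + (∑ w ∈ range Q, ∑ w' ∈ range Q, Er 1 2 w w') +
          (∑ w ∈ range Q, ∑ w' ∈ range Q, Er 1 3 w w')) := by
      simp only [sum_sub_distrib, ← mul_sum, sum_add_distrib]
    rw [e1, hsumS] at hsum
    simp only [sum_const, card_range, nsmul_eq_mul] at hsum
    have q1 := hsumE 0 2 (by decide) (by decide)
    have q2 := hsumE 0 3 (by decide) (by decide)
    have q3 := hsumE 1 2 (by decide) (by decide)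
    have q4 := hsumE 1 3 (by decide) (by decide)
    have hc : ((R * Q : ℕ) : ℝ) = R * Q := by push_cast; ring
    rw [hc] at q1 q2 q3 q4 hS
    have h7 : ε' * R * (Q * ((α - ε) * (4 * (R * Q)))) ≤ ε' * R * (Q * ∑ β, ∑ p ∈ range (R * Q), a β p) :=
      mul_le_mul_of_nonneg_left (mul_le_mul_of_nonneg_left hS hQ0.le) (by positivity)
    have h8 : ε * (ε' + 4) ≤ ε' ^ 2 := by
      have h9 : ε * (ε' + 4) ≤ ε' ^ 2 / 8 * (ε' + 4) := mul_le_mul_of_nonneg_right hε (by linarith)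
      nlinarith [mul_nonneg (sq_nonneg ε') (sub_nonneg.2 hε1), sq_nonneg ε']
    have h9 : 0 ≤ (4 * (R : ℝ) ^ 2 * Q ^ 2) * (ε' ^ 2 - ε * (ε' + 4)) := mul_nonneg (by positivity) (by linarith)
    nlinarith
  have hwQ := mem_range.1 hw
  have hwQ' := mem_range.1 hw'
  have hK0 : 0 < K := hK
  have hid : ∀ (x u : ℕ), u * Q + x / K * K + x % K = u * Q + x := by
    intro x u
    rw [add_assoc, Nat.div_add_mod']
  refine ⟨w / K, w % K, w' / K, w' % K, Nat.div_lt_of_lt_mul (by rw [← hQ]; exact hwQ), Nat.mod_lt _ hK0,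
    Nat.div_lt_of_lt_mul (by rw [← hQ]; exact hwQ'), Nat.mod_lt _ hK0, ?_, ?_⟩
  · simp only [hid]
    have h1 := hgood.1
    rw [hSd] at h1
    exact h1
  · intro β β' h1 h2
    simp only [hid]
    have h3 := hgood.2 β β' h1 h2
    rw [hErd] at h3
    exact h3

end Pool.Agent.HF
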