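import Pool.Agent.helper84.HF.SpecH

/-!
# hf:THE, the additive energy theorem (helper63)
-/

set_option autoImplicit false

open Finset

namespace Pool.Agent.HF

open Classical in
theorem THE_aux (hBSE : BSE_stmt) (hKVM : KVM_stmt) (m k N0 : ℕ) (hk1 : 1 ≤ k)
    (hGRO : ∀ N : ℕ, N0 ≤ N → ∀ (R : Finset ℕ) (G : ℕ → ℕ → Prop), R.Nonempty → (∀ u ∈ R, u < 2 ^ N) →
      7 / 32 * (N * Real.log 2) ≤ Real.log R.card →
      (∀ u ∈ R, 128 * ((Finset.range (N + 1)).filter (fun j => ¬ G u j)).card ≤ N) →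
      (∀ j p : ℕ, j + m ≤ N → ((R.filter (fun u => G u j ∧ px N j u = p)).image (px N (j + m))).card ^ 4 ≤ 2 ^ (3 * m)) →
        Real.log R.card + N * Real.log 2 / 1024 ≤ H (Rk (k + 1) R) sm) :
    ∃ (γ : ℝ) (N0 : ℕ), 0 < γ ∧ γ ≤ 1 ∧ ∀ N : ℕ, N0 ≤ N → ∀ (Y : Finset ℕ) (G : ℕ → ℕ → Prop), (∀ u ∈ Y, u < 2 ^ N) →
      2 ^ N ≤ Y.card ^ 4 →
      (∀ u ∈ Y, 128 * ((Finset.range (N + 1)).filter (fun j => ¬ G u j)).card ≤ N) →
      (∀ j p : ℕ, j + m ≤ N → ((Y.filter (fun u => G u j ∧ px N j u = p)).image (px N (j + m))).card ^ 4 ≤ 2 ^ (3 * m)) →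
        ((QE Y).card : ℝ) ≤ (2 : ℝ) ^ (-(γ * N)) * (Y.card : ℝ) ^ 3 := by
  have hL : 0 < Real.log 2 := Real.log_pos (by norm_num)
  have hkR : (1 : ℝ) ≤ k := by exact_mod_cast hk1
  have hk0 : (0 : ℝ) < k := by linarith
  refine ⟨1 / (8192 * k), N0, by positivity, ?_, ?_⟩
  · rw [div_le_one (by positivity)]
    linarith
  intro N hN Y G hu hY hb hp
  by_contra hcon
  rw [not_le] at hcon
  have hYpos : 0 < Y.card := by
    by_contra h0
    have h1 : Y.card = 0 := by omega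
    rw [h1, zero_pow (by norm_num : (4 : ℕ) ≠ 0)] at hY
    have h2 : 0 < 2 ^ N := by positivity
    omega
  have hYne : Y.Nonempty := Finset.card_pos.mp hYpos
  have hYR : (0 : ℝ) < Y.card := Nat.cast_pos.mpr hYpos
  have hG : G0 Y < 1 / (8192 * k) * N * Real.log 2 := by
    have h1 := Real.log_lt_log (by positivity) hcon
    rw [Real.log_mul (by positivity) (by positivity), Real.log_pow, Real.log_rpow (by norm_num)] at h1
    unfold G0
    push_cast at h1
    linarith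
  obtain ⟨R, hRY, hR, h1, h2, h3⟩ := hBSE Y hYne
  have h4 : (N : ℝ) * Real.log 2 ≤ 4 * Real.log Y.card := by
    have h5 : Real.log ((2 : ℝ) ^ N) ≤ Real.log ((Y.card : ℝ) ^ 4) :=
      Real.log_le_log (by positivity) (by exact_mod_cast hY)
    rw [Real.log_pow, Real.log_pow] at h5
    exact_mod_cast h5
  have hNL : 0 ≤ (N : ℝ) * Real.log 2 := mul_nonneg (Nat.cast_nonneg N) hL.le
  have h6 : 1 / (8192 * (k : ℝ)) ≤ 1 / 8192 := by
    refine one_div_le_one_div_of_le (by norm_num) ?_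
    linarith
  have h7 : 1 / (8192 * (k : ℝ)) * N * Real.log 2 ≤ 1 / 8192 * (N * Real.log 2) := by
    rw [mul_assoc]
    exact mul_le_mul_of_nonneg_right h6 hNL
  have h8 : 7 / 32 * (N * Real.log 2) ≤ Real.log R.card := by linarith
  have h9 := hGRO N hN R G hR (fun u hr => hu u (hRY hr)) h8 (fun u hr => hb u (hRY hr)) (fun j p hj => by
    refine le_trans (Nat.pow_le_pow_left (Finset.card_le_card (Finset.image_subset_image ?_)) 4) (hp j p hj)
    exact Finset.filter_subset_filter _ hRY)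
  have h10 := hKVM R k hR
  have h11 : (k : ℝ) * (H (R ×ˢ R) (fun z => z.1 + z.2) - Real.log R.card) ≤ k * (8 * G0 Y) :=
    mul_le_mul_of_nonneg_left (by linarith) hk0.le
  have h12 : (k : ℝ) * (8 * G0 Y) < k * (8 * (1 / (8192 * k) * N * Real.log 2)) :=
    mul_lt_mul_of_pos_left (by linarith) hk0
  have h13 : (k : ℝ) * (8 * (1 / (8192 * k) * N * Real.log 2)) = N * Real.log 2 / 1024 := by
    field_simp
    ring
  linarith

theorem THE_pow (e : ℕ) : 1 ≤ 4 ^ e := Nat.one_le_pow e 4 (by norm_num)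

/-- **Row THE** -/
theorem THE_proof (hBSE : BSE_stmt) (hKVM : KVM_stmt) (hGRO : GRO_stmt) (_hHBS : HBS_stmt) : THE_stmt := by
  intro m hm
  obtain ⟨N0, hN0⟩ := hGRO m hm
  exact THE_aux hBSE hKVM m _ N0 (THE_pow _) hN0

end Pool.Agent.HF
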